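import Pool.Agent.H41.SS.Targets
import Pool.Agent.H97.RLM.Step3

/-! (RUN) the path ends in a wide line. -/

set_option autoImplicit false

namespace Pool.Agent.H70.SSM

open Finset Pool.Agent.H97.RK Pool.Agent.H97.RL Pool.Agent.H41.SS
open Pool.Agent.H78.RLM (fls_congr)
open Pool.Agent.H97.RLM (vs_ext fls_ext step3)

theorem noAxS {n k m : ℕ} {F : Fml n k m} {D b : ℕ} {y : Fin n → Bool} {A W : Finset (Fin n)}
    {J : Finset (Fin m)} {line : ℕ → Clause n} {i : ℕ} (hSt : Sta F D b y A W J)
    (hF : Falsified (line i) y) (hv : vs (line i) ⊆ A)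
    (hC : Correct F line i (Rule.ax : Rule n)) : False := by
  obtain ⟨c, hc⟩ := hC
  have h1 : ∀ p, F c p ∈ line i := fun p => hc (mem_image_of_mem _ (mem_univ p))
  have h2 : ∀ p, (F c p).1 ∈ A := fun p => hv (mem_image_of_mem _ (h1 p))
  have h3 : ∀ p, y (F c p).1 ≠ (F c p).2 := fun p => hF _ (h1 p)
  have hlt := hSt.lt
  have h4 := hSt.inv {c} (by rw [card_singleton]; omega) (by
    intro c' hc' p _
    rw [mem_singleton] at hc'
    rw [hc']
    exact h3 p)
  have h5 : VS F {c} \ (A ∪ W) = ∅ := by
    rw [sdiff_eq_empty_iff_subset]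
    intro v hv
    unfold VS vF at hv
    rw [mem_biUnion] at hv
    obtain ⟨c', hc', hv⟩ := hv
    rw [mem_singleton] at hc'
    rw [hc', mem_image] at hv
    obtain ⟨p, -, rfl⟩ := hv
    exact mem_union_left _ (h2 p)
  rw [h5, card_singleton, card_empty] at h4
  omega

/-- the invariants of the path -/
structure Inv {n k m : ℕ} (F : Fml n k m) (D b : ℕ) (line : ℕ → Clause n) (rule : ℕ → Rule n)
    (U V : Finset ℕ) (an : ℕ → ℕ) (ls : ℕ → List (Fin n × Bool)) (l : ℕ) (x : Fin n → Bool)
    (i : ℕ) (q : Finset (Fin n)) (l1 : List (Fin n)) (y : Fin n → Bool) (A W : Finset (Fin n))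
    (J : Finset (Fin m)) : Prop where
  seg : Seg3 rule U V l i q l1
  hq : q = ((ls i).map Prod.fst).toFinset
  hvi : vs (line i) ⊆ vs (exC (line (an i)) (ls i))
  hA : vs (exC (line (an i)) (ls i)) ⊆ A
  hfC : Falsified (exC (line (an i)) (ls i)) y
  st : Sta F D b y A W J
  hyx : ∀ u, u ∉ W → y u = x u
  fal : Falsified (line i) y

theorem stepX (hSTP : Pool.Agent.H41.SS.T_STP) (hRSR : Pool.Agent.H41.SS.T_RSR) {n k m : ℕ}
    {F : Fml n k m} {D d w u : ℕ}
    (hw : 8 * D ≤ w) (hG : Goo F D d w u) (hun : u + w + d ≤ n) {S r : ℕ} {line : ℕ → Clause n}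
    {rule : ℕ → Rule n} (href : IsRef F S r line rule) {U V : Finset ℕ} {an : ℕ → ℕ}
    {ls : ℕ → List (Fin n × Bool)} (hT : Tree S r rule (U ∪ V) an ls)
    (hU : ∀ l ∈ U, (vs (line l)).card ≤ u) {l : ℕ} (hlr : l ≤ r) {x : Fin n → Bool}
    (hx : Gd F D d w x) {b i : ℕ} (hb : b + 6 * D ≤ w) (hi : i < S) (hil : i ≤ l)
    {q : Finset (Fin n)} {l1 : List (Fin n)} {y : Fin n → Bool} {A W : Finset (Fin n)}
    {J : Finset (Fin m)} (hI : Inv F D b line rule U V an ls l x i q l1 y A W J)
    (hAc : A.card + 1 + w + d ≤ n) :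
    (∃ l', l' < l ∧ l' ∈ U ∧ AtS F D line l') ∨
      ∃ (i' : ℕ) (q' : Finset (Fin n)) (l1' : List (Fin n)) (y' : Fin n → Bool)
        (A' W' : Finset (Fin n)) (J' : Finset (Fin m)), i' < i ∧
        Inv F D b line rule U V an ls l x i' q' l1' y' A' W' J' ∧
        (∀ v, l1.count v ≤ l1'.count v) ∧ ∀ v ∈ A', v ∉ A → l1.count v < l1'.count v := by
  obtain ⟨-, i', y'', A', W', J', hi', hst'', hyx'', hfal'', hvs', -, hyy, hor⟩ :=
    hSTP n k m F D d w b hb S r line rule href i x y A W J hi hx hI.st hI.hyx hI.fal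
      (hI.hvi.trans hI.hA) hAc
  have hi'S : i' < S := hi'.trans hi
  by_cases hiU : i' ∈ U
  · left
    have hcu := hU i' hiU
    obtain ⟨z, hz, hzy⟩ := hG (vs (line i')) y'' hcu
    obtain ⟨y3, W3, J3, h31, -, h33⟩ := hRSR n k m F D d w b (by omega) z y'' A' (vs (line i'))
      W' J' hz hst'' hvs' hzy (by omega)
    exact ⟨i', by omega, hiU, y3, W3, J3, h33, fls_congr hfal'' h31⟩
  · right
    have hir : i' ≠ r := by omega
    have hax : rule i' ≠ Rule.ax := fun h =>
      noAxS hst'' hfal'' hvs' (h ▸ href.2.2 i' hi'S)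
    obtain ⟨q', l1', hsg', hq', hvi', hA', hfC', hcle, hclt⟩ :=
      step3 href hT hi hI.seg hI.hq hI.hvi hI.hA hiU hir hax hI.hfC
        (fun u hu => hyy u (mem_union_left _ hu)) hfal'' hvs' hor
    exact ⟨i', q', l1', y'', A', W', J', hi',
      ⟨hsg', hq', hvi', hA', hfC', hst'', hyx'', hfal''⟩, hcle, hclt⟩

theorem pf_RUN (hTRN : Pool.Agent.H41.SS.T_TRN) (hSTP : Pool.Agent.H41.SS.T_STP)
    (hFGT : Pool.Agent.H41.SS.T_FGT) (hRSR : Pool.Agent.H41.SS.T_RSR) :
    Pool.Agent.H41.SS.T_RUN := by
  intro n k m F D d w u h hw hG hun S r line rule href U V an ls hT hU hseg l x y W J hlS hlr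
    hlU hst hfal hx hxy
  have hbase : an l = l ∧ ls l = [] :=
    hT.base l (hlU.elim (fun h => Or.inl (mem_union_left _ h)) Or.inr)
  have hlu : (vs (line l)).card ≤ u := by
    rcases hlU with h1 | h1
    · exact hU l h1
    · rw [h1, href.2.1]
      unfold vs
      rw [image_empty, card_empty]
      exact Nat.zero_le _
  -- phase 1
  have key1 : ∀ (l0 : List (Fin n)) (E0 A0 : Finset (Fin n)) (b : ℕ), b + 6 * D ≤ w →
      E0.card + (h + 2 * (w + d) + u + 1) < n → n ≤ A0.card + w + d →
      (∀ v ∈ A0, v ∉ vs (line l) → 0 < l0.count v) →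
      ∀ i, i < S → i ≤ l → ∀ (q : Finset (Fin n)) (l1 : List (Fin n)) (y : Fin n → Bool)
        (A W : Finset (Fin n)) (J : Finset (Fin m)),
        Inv F D b line rule U V an ls l x i q l1 y A W J →
        (∀ v, l0.count v ≤ l1.count v) → (∀ v ∈ A, v ∉ E0 → l0.count v < l1.count v) →
        ∃ l', l' < l ∧ l' ∈ U ∧ AtS F D line l' := by
    intro l0 E0 A0 b hb hE0 hA0 hl0 i
    induction i using Nat.strong_induction_on with
    | _ i ih =>
      intro hi hil q l1 y A W J hI hle hlt
      have hAc : A.card + 1 + w + d ≤ n := by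
        have h1 : A ⊆ E0 ∪ (A0ᶜ ∪ (vs (line l) ∪ univ.filter fun v => 1 < l1.count v)) := by
          intro v hv
          by_cases hvE : v ∈ E0
          · exact mem_union_left _ hvE
          · apply mem_union_right
            by_cases hvA : v ∈ A0
            · apply mem_union_right
              by_cases hvl : v ∈ vs (line l)
              · exact mem_union_left _ hvl
              · apply mem_union_right
                rw [mem_filter]
                have h2 := hl0 v hvA hvl
                have h3 := hlt v hv hvE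
                exact ⟨mem_univ _, by omega⟩
            · apply mem_union_left
              rw [mem_compl]
              exact hvA
        have h2 := card_le_card h1
        have h3 := card_union_le E0 (A0ᶜ ∪ (vs (line l) ∪ univ.filter fun v => 1 < l1.count v))
        have h4 := card_union_le A0ᶜ (vs (line l) ∪ univ.filter fun v => 1 < l1.count v)
        have h5 := card_union_le (vs (line l)) (univ.filter fun v => 1 < l1.count v)
        have h6 := hseg l i q l1 hlU.symm hI.seg
        have h7 : A0ᶜ.card = n - A0.card := by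
          rw [card_compl, Fintype.card_fin]
        omega
      rcases stepX hSTP hRSR hw hG hun href hT hU hlr hx hb hi hil hI hAc with h1 | h1
      · exact h1
      · obtain ⟨i', q', l1', y', A', W', J', hi', hI', hcle, hclt⟩ := h1
        refine ih i' hi' (by omega) (by omega) q' l1' y' A' W' J' hI'
          (fun v => (hle v).trans (hcle v)) fun v hv hvE => ?_
        by_cases hvA : v ∈ A
        · exact (hlt v hvA hvE).trans_le (hcle v)
        · exact (hle v).trans_lt (hclt v hv hvA)
  -- phase 0
  have key0 : ∀ i, i < S → i ≤ l → ∀ (q : Finset (Fin n)) (l1 : List (Fin n))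
      (y : Fin n → Bool) (A W : Finset (Fin n)) (J : Finset (Fin m)),
      Inv F D 0 line rule U V an ls l x i q l1 y A W J →
      (∀ v ∈ A, v ∉ vs (line l) → 0 < l1.count v) →
      (∃ i, i < S ∧ ∃ y' : Fin n → Bool, Falsified (exC (line (an i)) (ls i)) y' ∧
        n ≤ (vs (exC (line (an i)) (ls i))).card + (h + 2 * (w + d) + u + 1) ∧
        dst y' x ≤ 4 * D) ∨
        ∃ l', l' < l ∧ l' ∈ U ∧ AtS F D line l' := by
    intro i
    induction i using Nat.strong_induction_on with
    | _ i ih =>
      intro hi hil q l1 y A W J hI hlt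
      by_cases hAc : A.card + 1 + w + d ≤ n
      · rcases stepX hSTP hRSR hw hG hun href hT hU hlr hx (b := 0) (by omega) hi hil hI hAc with
          h1 | h1
        · exact Or.inr h1
        · obtain ⟨i', q', l1', y', A', W', J', hi', hI', hcle, hclt⟩ := h1
          refine ih i' hi' (by omega) (by omega) q' l1' y' A' W' J' hI' fun v hv hvE => ?_
          by_cases hvA : v ∈ A
          · exact (hlt v hvA hvE).trans_le (hcle v)
          · exact (Nat.zero_le _).trans_lt (hclt v hv hvA)
      · have hW : W.card ≤ 2 * D := by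
          have h1 := hI.st.crd
          have h2 := hI.st.lt
          omega
        by_cases hE : n ≤ (vs (exC (line (an i)) (ls i))).card + (h + 2 * (w + d) + u + 1)
        · left
          refine ⟨i, hi, y, hI.hfC, hE, ?_⟩
          have h1 : dst y x ≤ W.card := by
            unfold dst
            apply card_le_card
            intro v hv
            rw [mem_filter] at hv
            by_contra hvW
            exact hv.2 (hI.hyx v hvW)
          omega
        · right
          have hWD : W.card + 6 * D ≤ w := by omega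
          obtain ⟨y1, W1, J1, -, hy1, hyx1, hst1⟩ := hFGT n k m F D d w 0 x y A
            (vs (exC (line (an i)) (ls i))) W J hx hI.st hI.hyx hI.hA hWD (by omega)
          refine key1 l1 (vs (exC (line (an i)) (ls i))) A W.card hWD (by omega) (by omega) hlt
            i hi hil q l1 y1 (vs (exC (line (an i)) (ls i))) W1 J1
            ⟨hI.seg, hI.hq, hI.hvi, Subset.refl _, ?_, hst1, hyx1, ?_⟩ (fun v => le_rfl)
            fun v hv hv' => absurd hv hv'
          · exact fls_congr hI.hfC fun u hu => hy1 u (mem_union_left _ hu)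
          · exact fls_congr hI.fal fun u hu => hy1 u (mem_union_left _ (hI.hvi hu))
  -- the start
  have hys1 : ∀ v ∈ vs (line l) ∪ W, (fun v => if v ∈ vs (line l) ∪ W then y v else x v) v = y v :=
    fun v hv => if_pos hv
  have hst1 := hTRN n k m F D 0 y (fun v => if v ∈ vs (line l) ∪ W then y v else x v)
    (vs (line l)) W J hst hys1
  have hfal1 : Falsified (line l) (fun v => if v ∈ vs (line l) ∪ W then y v else x v) :=
    fls_congr hfal fun u hu => hys1 u (mem_union_left _ hu)
  have hex : vs (exC (line (an l)) (ls l)) = vs (line l) := by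
    rw [hbase.1, hbase.2, vs_ext]
    simp
  refine key0 l hlS le_rfl ∅ [] _ (vs (line l)) W J ⟨Seg3.refl, by rw [hbase.2]; rfl, ?_, ?_, ?_,
    hst1, ?_, hfal1⟩ fun v hv hv' => absurd hv hv'
  · rw [hex]
  · rw [hex]
  · rw [hbase.1, hbase.2, fls_ext]
    exact ⟨hfal1, by simp⟩
  · intro v hv
    by_cases hvl : v ∈ vs (line l)
    · exact (hys1 v (mem_union_left _ hvl)).trans (hxy v (mem_sdiff.2 ⟨hvl, hv⟩)).symm
    · apply if_neg
      rw [mem_union]
      exact fun h => h.elim hvl hv

end Pool.Agent.H70.SSM
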